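import Mathlib
import Pool.Agent.Helper49.FreeGroupPos

open FreeGroup Pool.Agent.Helper49.FreeGroupPos

namespace Pool.Agent.Results.MP_bbb74b_al.PartiallyNotPotentially

variable {Y : Type*} [DecidableEq Y]

omit [DecidableEq Y] in
/-- A word is positive if it lies in the submonoid generated by the generators. -/
def IsPositive (w : FreeGroup Y) : Prop :=
  w ∈ Submonoid.closure (Set.range (FreeGroup.of : Y → FreeGroup Y))

omit [DecidableEq Y] in
/-- A word is potentially positive if some automorphism maps it to a positive word. -/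
def IsPotentiallyPositive (w : FreeGroup Y) : Prop :=
  ∃ φ : FreeGroup Y ≃* FreeGroup Y, IsPositive (φ w)

/-- A word is partially positive if some generator `a` occurs in its reduced form while `a⁻¹`
does not. -/
def IsPartiallyPositive (w : FreeGroup Y) : Prop :=
  ∃ a : Y, (a, true) ∈ w.toWord ∧ (a, false) ∉ w.toWord

lemma pos_of_isPositive (w : FreeGroup Y) (h : IsPositive w) : Pos w.toWord := by
  unfold IsPositive at h
  refine Submonoid.closure_induction (motive := fun w _ => Pos w.toWord) ?_ ?_ ?_ h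
  · rintro _ ⟨y, rfl⟩ z hz
    rw [toWord_of] at hz
    have : z = (y, true) := by simpa using hz
    rw [this]
  · intro z hz; simp at hz
  · intro x y _ _ hx hy z hz
    have := (toWord_mul_sublist x y).subset hz
    rcases List.mem_append.1 this with h | h
    · exact hx z h
    · exact hy z h

lemma comm_ne_one (b c : Y) (hbc : b ≠ c) :
    FreeGroup.of b * FreeGroup.of c * (FreeGroup.of b)⁻¹ * (FreeGroup.of c)⁻¹ ≠ 1 := by
  intro h
  have h1 : FreeGroup.of b * FreeGroup.of c = FreeGroup.of c * FreeGroup.of b := by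
    have : FreeGroup.of b * FreeGroup.of c
        = (FreeGroup.of b * FreeGroup.of c * (FreeGroup.of b)⁻¹ * (FreeGroup.of c)⁻¹) *
          (FreeGroup.of c * FreeGroup.of b) := by group
    rw [this, h, one_mul]
  have h2 := congrArg FreeGroup.toWord h1
  have e : ∀ x y : Y, (FreeGroup.of x * FreeGroup.of y).toWord = [(x, true), (y, true)] := by
    intro x y
    have : IsReduced [(x, true), (y, true)] := by simp
    rw [← toWord_mk_red this]
    rfl
  rw [e, e] at h2
  simp only [List.cons.injEq, Prod.mk.injEq, and_true] at h2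
  exact hbc h2.1

theorem not_pot (a b c : Y) (hbc : b ≠ c) :
    ¬ IsPotentiallyPositive (FreeGroup.of a ^ 2 *
      ((FreeGroup.of b * FreeGroup.of c * (FreeGroup.of b)⁻¹ * (FreeGroup.of c)⁻¹) * FreeGroup.of a *
      (FreeGroup.of b * FreeGroup.of c * (FreeGroup.of b)⁻¹ * (FreeGroup.of c)⁻¹)⁻¹) ^ 2) := by
  rintro ⟨φ, hφ⟩
  set u := FreeGroup.of b * FreeGroup.of c * (FreeGroup.of b)⁻¹ * (FreeGroup.of c)⁻¹ with hu
  have hu1 : u ≠ 1 := comm_ne_one b c hbc
  have hp := pos_of_isPositive _ hφ
  refine main (φ (FreeGroup.of a)) (φ u) 1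
    (φ (FreeGroup.of a ^ 2 * (u * FreeGroup.of a * u⁻¹) ^ 2)) ?_ ?_ ?_ ?_ hp ?_
  · intro h
    exact FreeGroup.of_ne_one a ((map_eq_one_iff φ φ.injective).1 h)
  · have h1 : ∀ g : FreeGroup Y, chi (φ g) = (chi.comp φ.toMonoidHom) g := fun g => rfl
    rw [h1, hu]
    simp only [MonoidHom.map_mul, MonoidHom.map_inv]
    rw [mul_comm ((chi.comp φ.toMonoidHom) (FreeGroup.of b)), mul_assoc, mul_assoc, mul_inv_cancel_left,
      mul_inv_cancel]
  · intro h
    exact hu1 ((map_eq_one_iff φ φ.injective).1 h)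
  · intro h
    have h1 : φ (FreeGroup.of a * (u * FreeGroup.of a * u⁻¹)) = 1 := by
      rw [← h]
      simp only [_root_.map_mul, _root_.map_inv]
    have h2 := (map_eq_one_iff φ φ.injective).1 h1
    have h3 := congrArg chi h2
    simp only [MonoidHom.map_mul, MonoidHom.map_inv, MonoidHom.map_one] at h3
    rw [mul_comm (chi u), mul_inv_cancel_right] at h3
    have h4 : chi (FreeGroup.of a : FreeGroup Y) = Multiplicative.ofAdd 1 := by
      unfold chi; simp
    rw [h4, ← ofAdd_add] at h3
    have h5 := congrArg Multiplicative.toAdd h3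
    simp at h5
  · simp only [_root_.map_mul, _root_.map_inv, map_pow, one_mul, inv_one, mul_one]

theorem partPos (a b c : Y) (hab : a ≠ b) (hac : a ≠ c) (hbc : b ≠ c) :
    IsPartiallyPositive (FreeGroup.of a ^ 2 *
      ((FreeGroup.of b * FreeGroup.of c * (FreeGroup.of b)⁻¹ * (FreeGroup.of c)⁻¹) * FreeGroup.of a *
      (FreeGroup.of b * FreeGroup.of c * (FreeGroup.of b)⁻¹ * (FreeGroup.of c)⁻¹)⁻¹) ^ 2) := by
  set L : List (Y × Bool) := [(a, true), (a, true), (b, true), (c, true), (b, false), (c, false),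
    (a, true), (a, true), (c, true), (b, true), (c, false), (b, false)] with hL
  have hred : IsReduced L := by
    simp [hL, isReduced_cons_cons, hab, hac, hbc, hac.symm, hbc.symm]
  have hb : (FreeGroup.of b : FreeGroup Y)⁻¹ = FreeGroup.mk [(b, false)] := by
    rw [FreeGroup.of, inv_mk]; rfl
  have hc : (FreeGroup.of c : FreeGroup Y)⁻¹ = FreeGroup.mk [(c, false)] := by
    rw [FreeGroup.of, inv_mk]; rfl
  have e : (FreeGroup.of a ^ 2 *
      ((FreeGroup.of b * FreeGroup.of c * (FreeGroup.of b)⁻¹ * (FreeGroup.of c)⁻¹) * FreeGroup.of a *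
      (FreeGroup.of b * FreeGroup.of c * (FreeGroup.of b)⁻¹ * (FreeGroup.of c)⁻¹)⁻¹) ^ 2)
      = FreeGroup.mk L := by
    have h1 : FreeGroup.mk L = FreeGroup.of a * FreeGroup.of a * FreeGroup.of b * FreeGroup.of c *
        (FreeGroup.of b)⁻¹ * (FreeGroup.of c)⁻¹ * FreeGroup.of a * FreeGroup.of a * FreeGroup.of c *
        FreeGroup.of b * (FreeGroup.of c)⁻¹ * (FreeGroup.of b)⁻¹ := by
      rw [hb, hc]
      simp only [FreeGroup.of, mul_mk]
      rfl
    rw [h1]
    simp only [pow_two, mul_assoc, mul_inv_rev, inv_inv, inv_mul_cancel_left, mul_inv_cancel_left]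
  refine ⟨a, ?_, ?_⟩
  · rw [e, toWord_mk_red hred]
    simp [hL]
  · rw [e, toWord_mk_red hred]
    simp [hL, hab, hac]

end Pool.Agent.Results.MP_bbb74b_al.PartiallyNotPotentially

open Pool.Agent.Results.MP_bbb74b_al.PartiallyNotPotentially in
/-- For every rank `r ≥ 3` there is a partially positive word which is not potentially positive. -/
theorem Pool.Agent.Results.MP_bbb74b_al.PartiallyNotPotentially.result (r : ℕ) (hr : 3 ≤ r) :
    ∃ w : FreeGroup (Fin r), IsPartiallyPositive w ∧ ¬ IsPotentiallyPositive w := by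
  let a : Fin r := ⟨0, by omega⟩
  let b : Fin r := ⟨1, by omega⟩
  let c : Fin r := ⟨2, by omega⟩
  have hab : a ≠ b := by simp [a, b, Fin.ext_iff]
  have hac : a ≠ c := by simp [a, c, Fin.ext_iff]
  have hbc : b ≠ c := by simp [b, c, Fin.ext_iff]
  exact ⟨_, partPos a b c hab hac hbc, not_pot a b c hbc⟩
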